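import Mathlib

set_option autoImplicit false
open MeasureTheory Set Filter Topology Real

namespace Pool.Agent.H.MP_8ae060_pr

noncomputable def cd (F : ℝ → ℝ) (t : ℝ) : ℝ := ∫ x in Iic t, F x

lemma cd_sub {F : ℝ → ℝ} (hF : Integrable F) (a b : ℝ) : cd F b - cd F a = ∫ x in a..b, F x :=
  intervalIntegral.integral_Iic_sub_Iic hF.integrableOn hF.integrableOn

lemma cd_mono {F : ℝ → ℝ} (hF : Integrable F) (h0 : ∀ x, 0 ≤ F x) : Monotone (cd F) := by
  intro a b hab
  have := cd_sub hF a b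
  have h2 : 0 ≤ ∫ x in a..b, F x := intervalIntegral.integral_nonneg hab (fun x _ => h0 x)
  linarith

lemma cd_nonneg {F : ℝ → ℝ} (h0 : ∀ x, 0 ≤ F x) (t : ℝ) : 0 ≤ cd F t :=
  integral_nonneg (fun x => h0 x)

lemma cd_le {F : ℝ → ℝ} (hF : Integrable F) (h0 : ∀ x, 0 ≤ F x) (t : ℝ) : cd F t ≤ ∫ x, F x :=
  setIntegral_le_integral hF (ae_of_all _ h0)

lemma cd_top {F : ℝ → ℝ} (hF : Integrable F) : Tendsto (cd F) atTop (𝓝 (∫ x, F x)) :=
  (aecover_Iic tendsto_id).integral_tendsto_of_countably_generated hF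

lemma cd_bot {F : ℝ → ℝ} (hF : Integrable F) : Tendsto (cd F) atBot (𝓝 0) := by
  have h : Tendsto (fun t => ∫ x in Ioi t, F x) atBot (𝓝 (∫ x, F x)) :=
    (aecover_Ioi tendsto_id).integral_tendsto_of_countably_generated hF
  have h2 : cd F = fun t => (∫ x, F x) - ∫ x in Ioi t, F x := by
    funext t
    have := integral_add_compl (measurableSet_Iic (a := t)) hF
    rw [compl_Iic] at this
    unfold cd; linarith
  rw [h2]
  have := (tendsto_const_nhds (x := ∫ x, F x)).sub h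
  simpa using this

lemma cd_deriv {F : ℝ → ℝ} (hF : Integrable F) {x : ℝ}
    (h : HasDerivAt (fun x => ∫ t in (0:ℝ)..x, F t) (F x) x) : HasDerivAt (cd F) (F x) x := by
  have h2 : cd F = fun x => (∫ t in (0:ℝ)..x, F t) + cd F 0 := by
    funext t
    have := cd_sub hF 0 t
    linarith
  rw [h2]
  exact h.add_const _

/-- strictness at a point of positive derivative -/
lemma strict {C : ℝ → ℝ} (hC : Monotone C) {x d : ℝ} (h : HasDerivAt C d x) (hd : 0 < d) {y : ℝ}
    (hy : C y = C x) : y = x := by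
  by_contra hne
  have h1 := hasDerivAt_iff_tendsto_slope_left_right.mp h
  rcases lt_or_gt_of_ne hne with hlt | hlt
  · have h2 : ∀ᶠ z in 𝓝[<] x, slope C x z = 0 := by
      filter_upwards [Ioo_mem_nhdsLT hlt] with z hz
      have a1 := hC hz.1.le
      have a2 := hC hz.2.le
      have : C z = C x := by linarith
      simp [slope, this]
    have := tendsto_nhds_unique h1.1 (tendsto_const_nhds.congr' (h2.mono fun z hz => hz.symm))
    linarith
  · have h2 : ∀ᶠ z in 𝓝[>] x, slope C x z = 0 := by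
      filter_upwards [Ioo_mem_nhdsGT hlt] with z hz
      have a1 := hC hz.1.le
      have a2 := hC hz.2.le
      have : C z = C x := by linarith
      simp [slope, this]
    have := tendsto_nhds_unique h1.2 (tendsto_const_nhds.congr' (h2.mono fun z hz => hz.symm))
    linarith

noncomputable def ga (t : ℝ) : ℝ := exp (-π * t ^ 2)

lemma ga_pos (t : ℝ) : 0 < ga t := exp_pos _
lemma ga_int : Integrable ga := integrable_exp_neg_mul_sq pi_pos
lemma ga_one : ∫ x, ga x = 1 := by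
  unfold ga
  rw [integral_gaussian, div_self pi_pos.ne', sqrt_one]
lemma ga_cont : Continuous ga := by unfold ga; fun_prop

lemma Ph_deriv (x : ℝ) : HasDerivAt (cd ga) (ga x) x :=
  cd_deriv ga_int (intervalIntegral.integral_hasDerivAt_right ga_int.intervalIntegrable
    ga_cont.stronglyMeasurable.stronglyMeasurableAtFilter ga_cont.continuousAt)

lemma Ph_mono : Monotone (cd ga) := cd_mono ga_int (fun x => (ga_pos x).le)

lemma Ph_inj : Function.Injective (cd ga) := fun _ b h => strict Ph_mono (Ph_deriv b) (ga_pos b) h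

lemma Ph_surj {u : ℝ} (hu : u ∈ Ioo (0:ℝ) 1) : ∃ t, cd ga t = u := by
  have hc : Continuous (cd ga) := continuous_iff_continuousAt.mpr fun x => (Ph_deriv x).continuousAt
  obtain ⟨a, ha⟩ := ((cd_bot ga_int).eventually (gt_mem_nhds hu.1)).exists
  have ht := cd_top ga_int
  rw [ga_one] at ht
  obtain ⟨b, hb⟩ := (ht.eventually (lt_mem_nhds hu.2)).exists
  exact mem_range_of_exists_le_of_exists_ge hc ⟨a, ha.le⟩ ⟨b, hb.le⟩

lemma Ph_mem (t : ℝ) : cd ga t ∈ Ioo (0:ℝ) 1 := by
  have s := Ph_mono.strictMono_of_injective Ph_inj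
  have a1 := cd_nonneg (fun x => (ga_pos x).le) (t - 1)
  have a2 := cd_le ga_int (fun x => (ga_pos x).le) (t + 1)
  rw [ga_one] at a2
  have b1 := s (show t - 1 < t by linarith)
  have b2 := s (show t < t + 1 by linarith)
  exact ⟨by linarith, by linarith⟩

noncomputable def Ps : ℝ → ℝ := Function.invFun (cd ga)

lemma Ph_Ps {u : ℝ} (hu : u ∈ Ioo (0:ℝ) 1) : cd ga (Ps u) = u :=
  Function.invFun_eq (Ph_surj hu)

lemma Ps_mono : StrictMonoOn Ps (Ioo 0 1) := by
  intro a ha b hb hab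
  by_contra h
  have := Ph_mono (not_lt.mp h)
  rw [Ph_Ps ha, Ph_Ps hb] at this
  linarith

lemma Ps_deriv {u : ℝ} (hu : u ∈ Ioo (0:ℝ) 1) : HasDerivAt Ps (ga (Ps u))⁻¹ u := by
  have hn : Ioo (0:ℝ) 1 ∈ 𝓝 u := Ioo_mem_nhds hu.1 hu.2
  refine HasDerivAt.of_local_left_inverse ?_ (Ph_deriv _) (ga_pos _).ne' ?_
  · refine continuousAt_of_monotoneOn_of_image_mem_nhds Ps_mono.monotoneOn hn ?_
    have : Ps '' Ioo 0 1 = univ := by
      refine eq_univ_of_forall fun t => ⟨cd ga t, Ph_mem t, ?_⟩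
      exact Function.leftInverse_invFun Ph_inj t
    rw [this]; exact univ_mem
  · filter_upwards [hn] with y hy using Ph_Ps hy

/-- transport map -/
lemma transport {F : ℝ → ℝ} (hm : Measurable F) (hF : Integrable F) (h0 : ∀ x, 0 ≤ F x)
    (h1 : ∫ x, F x = 1) :
    ∃ (T : ℝ → ℝ) (G : Set ℝ), MeasurableSet G ∧ (∀ᵐ x, x ∉ G → F x = 0) ∧ StrictMonoOn T G ∧
      ∀ x ∈ G, 0 < F x ∧ HasDerivAt T (F x / ga (T x)) x := by
  have hae := LocallyIntegrable.ae_hasDerivAt_integral hF.locallyIntegrable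
  obtain ⟨N, hN, hNm, hN0⟩ := exists_measurable_superset_of_null (ae_iff.mp hae)
  have hC := cd_mono hF h0
  have key : ∀ x ∈ Nᶜ ∩ {x | 0 < F x}, HasDerivAt (cd F) (F x) x ∧ cd F x ∈ Ioo (0:ℝ) 1 := by
    intro x hx
    have hd : HasDerivAt (cd F) (F x) x := by
      apply cd_deriv hF
      by_contra hc
      exact hx.1 (hN (fun h => hc (h 0)))
    refine ⟨hd, ?_, ?_⟩
    · have a1 := cd_nonneg h0 (x - 1)
      have a2 := hC (show x - 1 ≤ x by linarith)
      rcases a2.eq_or_lt with h | h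
      · have := strict hC hd hx.2 h; linarith
      · linarith
    · have a1 := cd_le hF h0 (x + 1)
      have a2 := hC (show x ≤ x + 1 by linarith)
      rcases a2.eq_or_lt with h | h
      · have := strict hC hd hx.2 h.symm; linarith
      · linarith
  refine ⟨fun x => Ps (cd F x), Nᶜ ∩ {x | 0 < F x},
    hNm.compl.inter (measurableSet_lt measurable_const hm), ?_, ?_, ?_⟩
  · have : ∀ᵐ x, x ∉ N := measure_eq_zero_iff_ae_notMem.mp hN0
    filter_upwards [this] with x hx hG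
    by_contra hc
    exact hG ⟨hx, lt_of_le_of_ne (h0 x) (Ne.symm hc)⟩
  · intro a ha b hb hab
    apply Ps_mono (key a ha).2 (key b hb).2
    rcases (hC hab.le).eq_or_lt with h | h
    · have := strict hC (key b hb).1 hb.2 h; linarith
    · exact h
  · intro x hx
    refine ⟨hx.2, ?_⟩
    have := (Ps_deriv (key x hx).2).comp x (key x hx).1
    rw [div_eq_inv_mul]
    exact this

lemma pw {a b c t1 t2 t3 : ℝ} (ha : 0 < a) (hb : 0 < b) (hc : 0 < c) :
    (a * ga t1 * (b * ga t2) * (c * ga t3)) ^ (2/3 : ℝ) ≤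
      (2 * (a * b + b * c + c * a)) * ((1/6) * (exp (-(π/3) * (t1 - t2) ^ 2) *
        exp (-(π/9) * (t1 + t2 - 2 * t3) ^ 2))) := by
  have e1 : a * ga t1 * (b * ga t2) * (c * ga t3) =
      (a * b * c) * exp (-π * (t1 ^ 2 + t2 ^ 2 + t3 ^ 2)) := by
    unfold ga
    rw [show -π * (t1 ^ 2 + t2 ^ 2 + t3 ^ 2) = -π * t1 ^ 2 + -π * t2 ^ 2 + -π * t3 ^ 2 by ring,
      exp_add, exp_add]
    ring
  rw [e1, mul_rpow (by positivity) (exp_pos _).le, ← exp_mul, ← exp_add]
  have h1 : (a * b * c) ^ (2/3 : ℝ) ≤ (a * b + b * c + c * a) / 3 := by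
    have := geom_mean_le_arith_mean3_weighted (w₁ := 1/3) (w₂ := 1/3) (w₃ := 1/3)
      (p₁ := a * b) (p₂ := b * c) (p₃ := c * a) (by norm_num) (by norm_num) (by norm_num)
      (by positivity) (by positivity) (by positivity) (by norm_num)
    rw [← mul_rpow (by positivity) (by positivity), ← mul_rpow (by positivity) (by positivity),
      show a * b * (b * c) * (c * a) = (a * b * c) ^ (2:ℝ) by rw [rpow_two]; ring,
      ← rpow_mul (by positivity)] at this
    norm_num at this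
    linarith
  have h2 : exp (-π * (t1 ^ 2 + t2 ^ 2 + t3 ^ 2) * (2/3)) ≤
      exp (-(π/3) * (t1 - t2) ^ 2 + -(π/9) * (t1 + t2 - 2 * t3) ^ 2) := by
    apply exp_le_exp.mpr
    have := mul_nonneg pi_pos.le (sq_nonneg (t1 + t2 + t3))
    nlinarith
  calc _ ≤ (a * b + b * c + c * a) / 3 *
        exp (-(π/3) * (t1 - t2) ^ 2 + -(π/9) * (t1 + t2 - 2 * t3) ^ 2) :=
        mul_le_mul h1 h2 (exp_pos _).le (by positivity)
    _ = _ := by ring

noncomputable def gg (p : ℝ × ℝ) : ℝ := (1/6) * (exp (-(π/3) * p.1 ^ 2) * exp (-(π/9) * p.2 ^ 2))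

lemma gg_int : ∫⁻ p : ℝ × ℝ, ENNReal.ofReal (gg p) = ENNReal.ofReal (√3 / 2) := by
  have i1 := integrable_exp_neg_mul_sq (b := π/3) (by positivity)
  have i2 := integrable_exp_neg_mul_sq (b := π/9) (by positivity)
  have hi : Integrable gg := (i1.mul_prod i2).const_mul _
  rw [← ofReal_integral_eq_lintegral_ofReal hi (ae_of_all _ fun p => by unfold gg; positivity)]
  congr 1
  unfold gg
  rw [integral_const_mul]
  have := integral_prod_mul (μ := (volume : Measure ℝ)) (ν := (volume : Measure ℝ))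
    (fun x : ℝ => exp (-(π/3) * x ^ 2)) (fun x : ℝ => exp (-(π/9) * x ^ 2))
  rw [Measure.volume_eq_prod, this, integral_gaussian, integral_gaussian]
  have e1 : π / (π / 3) = 3 := by field_simp
  have e2 : π / (π / 9) = 3 ^ 2 := by field_simp; norm_num
  rw [e1, e2, sqrt_sq (by norm_num)]
  ring

lemma young {F : ℝ → ℝ} (hm : Measurable F) (hF : Integrable F) (h0 : ∀ x, 0 ≤ F x)
    (h1 : ∫ x, F x = 1) (s : ℝ) :
    ∫⁻ p : ℝ × ℝ, ENNReal.ofReal ((F p.1 * F p.2 * F (s - p.1 - p.2)) ^ (2/3 : ℝ)) ≤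
      ENNReal.ofReal (√3 / 2) := by
  obtain ⟨T, G, hG, hz, hT, hd⟩ := transport hm hF h0 h1
  set S : Set (ℝ × ℝ) := {p | p.1 ∈ G ∧ p.2 ∈ G ∧ s - p.1 - p.2 ∈ G} with hS
  have hSm : MeasurableSet S := by
    refine (measurable_fst hG).inter ((measurable_snd hG).inter ?_)
    exact (show Measurable fun p : ℝ × ℝ => s - p.1 - p.2 by fun_prop) hG
  have q3 : Measure.QuasiMeasurePreserving (fun p : ℝ × ℝ => s - p.1 - p.2) volume volume := by
    refine QuasiMeasurePreserving.prod_of_right (by fun_prop) (ae_of_all _ fun x => ?_)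
    exact (Measure.measurePreserving_sub_left volume (s - x)).quasiMeasurePreserving
  have z1 := (Measure.quasiMeasurePreserving_fst (μ := (volume : Measure ℝ))
    (ν := (volume : Measure ℝ))).ae hz
  have z2 := (Measure.quasiMeasurePreserving_snd (μ := (volume : Measure ℝ))
    (ν := (volume : Measure ℝ))).ae hz
  have z3 := q3.ae hz
  let d : ℝ → ℝ := fun x => F x / ga (T x)
  let Θ : ℝ × ℝ → ℝ × ℝ := fun p => (T p.1 - T p.2, T p.1 + T p.2 - 2 * T (s - p.1 - p.2))
  let D : ℝ × ℝ → (ℝ × ℝ →L[ℝ] ℝ × ℝ) := fun p =>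
    (Matrix.toLin (.finTwoProd ℝ) (.finTwoProd ℝ)
      !![d p.1, - d p.2; d p.1 + 2 * d (s - p.1 - p.2), d p.2 + 2 * d (s - p.1 - p.2)]).toContinuousLinearMap
  have hD : ∀ p ∈ S, HasFDerivWithinAt Θ (D p) S p := by
    intro p hp
    apply HasFDerivAt.hasFDerivWithinAt
    have a1 := (hd _ hp.1).2.comp_hasFDerivAt p (hasFDerivAt_fst (𝕜 := ℝ))
    have a2 := (hd _ hp.2.1).2.comp_hasFDerivAt p (hasFDerivAt_snd (𝕜 := ℝ))
    have a3 := (hd _ hp.2.2).2.comp_hasFDerivAt p
      (((hasFDerivAt_const s p).sub (hasFDerivAt_fst (𝕜 := ℝ))).sub (hasFDerivAt_snd (𝕜 := ℝ)))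
    have a4 := (a1.sub a2).prodMk ((a1.add a2).sub (a3.const_mul 2))
    refine HasFDerivAt.congr_fderiv a4 ?_
    simp only [D]
    rw [Matrix.toLin_finTwoProd_toContinuousLinearMap]
    ext <;> simp [d] <;> ring
  have hdet : ∀ p, (D p).det =
      2 * (d p.1 * d p.2 + d p.2 * d (s - p.1 - p.2) + d (s - p.1 - p.2) * d p.1) := by
    intro p
    simp only [D, LinearMap.det_toContinuousLinearMap, LinearMap.det_toLin, Matrix.det_fin_two_of]
    ring
  have hinj : InjOn Θ S := by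
    intro p hp q hq h
    have e1 : T p.1 - T p.2 = T q.1 - T q.2 := congrArg Prod.fst h
    have e2 : T p.1 + T p.2 - 2 * T (s - p.1 - p.2) = T q.1 + T q.2 - 2 * T (s - q.1 - q.2) :=
      congrArg Prod.snd h
    rcases lt_trichotomy (T p.1) (T q.1) with c | c | c
    · have b1 := (hT.lt_iff_lt hp.1 hq.1).mp c
      have b2 := (hT.lt_iff_lt hp.2.1 hq.2.1).mp (by linarith)
      have b3 := (hT.lt_iff_lt hp.2.2 hq.2.2).mp (by linarith)
      linarith
    · exact Prod.ext (hT.injOn hp.1 hq.1 c) (hT.injOn hp.2.1 hq.2.1 (by linarith))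
    · have b1 := (hT.lt_iff_lt hq.1 hp.1).mp c
      have b2 := (hT.lt_iff_lt hq.2.1 hp.2.1).mp (by linarith)
      have b3 := (hT.lt_iff_lt hq.2.2 hp.2.2).mp (by linarith)
      linarith
  have cv := lintegral_image_eq_lintegral_abs_det_fderiv_mul volume hSm hD hinj
    (fun p => ENNReal.ofReal (gg p))
  rw [← gg_int]
  refine le_trans ?_ (setLIntegral_le_lintegral (Θ '' S) _)
  rw [cv, ← lintegral_indicator hSm]
  refine lintegral_mono_ae ?_
  filter_upwards [z1, z2, z3] with p w1 w2 w3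
  by_cases hp : p ∈ S
  · rw [indicator_of_mem hp, ← ENNReal.ofReal_mul (abs_nonneg _)]
    apply ENNReal.ofReal_le_ofReal
    have dp : ∀ x ∈ G, 0 < d x := fun x hx => div_pos (hd x hx).1 (ga_pos _)
    have de : ∀ x, F x = d x * ga (T x) := fun x => by
      simp only [d]; rw [div_mul_cancel₀ _ (ga_pos _).ne']
    have := pw (t1 := T p.1) (t2 := T p.2) (t3 := T (s - p.1 - p.2))
      (dp _ hp.1) (dp _ hp.2.1) (dp _ hp.2.2)
    rw [← de, ← de, ← de, ← hdet] at this
    refine this.trans ?_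
    exact mul_le_mul_of_nonneg_right (le_abs_self _) (by positivity)
  · have : F p.1 * F p.2 * F (s - p.1 - p.2) = 0 := by
      by_cases c1 : p.1 ∈ G
      · by_cases c2 : p.2 ∈ G
        · have c3 : s - p.1 - p.2 ∉ G := fun c3 => hp ⟨c1, c2, c3⟩
          rw [w3 c3, mul_zero]
        · rw [w2 c2]; ring
      · rw [w1 c1]; ring
    rw [this, zero_rpow (by norm_num)]
    simp

end Pool.Agent.H.MP_8ae060_pr
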