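import Pool.Agent.H.MP_8ae060_pr.A

set_option autoImplicit false
open MeasureTheory Set Filter Topology Real

namespace Pool.Agent.H.MP_8ae060_pr

noncomputable def dn (ν : Measure ℝ) (x : ℝ) : ℝ := (ν.rnDeriv volume x).toReal

lemma dn_meas (ν : Measure ℝ) : Measurable (dn ν) :=
  (Measure.measurable_rnDeriv _ _).ennreal_toReal

lemma dn_nonneg (ν : Measure ℝ) (x : ℝ) : 0 ≤ dn ν x := ENNReal.toReal_nonneg

lemma dn_ae (ν : Measure ℝ) [IsProbabilityMeasure ν] :
    ∀ᵐ x, ENNReal.ofReal (dn ν x) = ν.rnDeriv volume x := by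
  filter_upwards [Measure.rnDeriv_lt_top ν volume] with x hx
  exact ENNReal.ofReal_toReal hx.ne

lemma dn_wd (ν : Measure ℝ) [IsProbabilityMeasure ν] (h : ν ≪ volume) :
    volume.withDensity (fun x => ENNReal.ofReal (dn ν x)) = ν := by
  rw [withDensity_congr_ae (dn_ae ν), Measure.withDensity_rnDeriv_eq _ _ h]

lemma ent {Ω : Type*} [MeasurableSpace Ω] {P : Measure Ω} {φ : Ω → ℝ}
    (ν : Measure ℝ) [IsProbabilityMeasure ν] (h : ν ≪ volume)
    (hi : Integrable (fun x => negMulLog (dn ν x))) (hφ : MeasurePreserving φ P ν) :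
    Integrable (fun w => log (dn ν (φ w))) P ∧
      ∫ w, log (dn ν (φ w)) ∂P = - ∫ x, negMulLog (dn ν x) ∧ ∀ᵐ w ∂P, 0 < dn ν (φ w) := by
  have e : (fun x => (ν.rnDeriv volume x).toReal • log (dn ν x)) =
      fun x => - negMulLog (dn ν x) := by
    funext x; simp [negMulLog, dn]
  have i1 : Integrable (fun x => log (dn ν x)) ν := by
    rw [← integrable_rnDeriv_smul_iff h, e]; exact hi.neg
  have i2 : ∫ x, log (dn ν x) ∂ν = - ∫ x, negMulLog (dn ν x) := by
    rw [← integral_rnDeriv_smul h, e, integral_neg]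
  have i3 : ∀ᵐ x ∂ν, 0 < dn ν x := by
    filter_upwards [Measure.rnDeriv_pos h, h.ae_le (Measure.rnDeriv_lt_top ν volume)] with x a b
    exact ENNReal.toReal_pos a.ne' b.ne
  refine ⟨hφ.integrable_comp_of_integrable i1, ?_, hφ.quasiMeasurePreserving.ae i3⟩
  have := integral_map (μ := P) hφ.measurable.aemeasurable
    (f := fun x => log (dn ν x)) (dn_meas _).log.aestronglyMeasurable
  rw [← i2, ← this, hφ.map_eq]

lemma conv_ae (μ ν : Measure ℝ) [IsProbabilityMeasure μ] [IsProbabilityMeasure ν]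
    (h : μ ≪ volume) (h' : ν ≪ volume) :
    ∀ᵐ s, Integrable (fun y => dn μ y * dn ν (s - y)) ∧
      ∫ y, dn μ y * dn ν (s - y) = dn (μ ∗ ν) s := by
  filter_upwards [rnDeriv_conv h h', dn_ae (μ ∗ ν)] with s h1 h2
  have h3 : ∫⁻ y, ENNReal.ofReal (dn μ y * dn ν (s - y)) = ENNReal.ofReal (dn (μ ∗ ν) s) := by
    rw [h2, h1, lconvolution_def]
    refine lintegral_congr_ae ?_
    filter_upwards [dn_ae μ,
      (Measure.measurePreserving_sub_left volume s).quasiMeasurePreserving.ae (dn_ae ν)] with y a b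
    rw [ENNReal.ofReal_mul (dn_nonneg _ _), a, b, neg_add_eq_sub]
  have hm : Measurable (fun y => dn μ y * dn ν (s - y)) :=
    (dn_meas μ).mul ((dn_meas ν).comp (by fun_prop))
  have hn : 0 ≤ᵐ[volume] (fun y => dn μ y * dn ν (s - y)) :=
    ae_of_all _ fun y => mul_nonneg (dn_nonneg _ _) (dn_nonneg _ _)
  refine ⟨(lintegral_ofReal_ne_top_iff_integrable hm.aestronglyMeasurable hn).mp
    (by rw [h3]; exact ENNReal.ofReal_ne_top), ?_⟩
  rw [integral_eq_lintegral_of_nonneg_ae hn hm.aestronglyMeasurable, h3,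
    ENNReal.toReal_ofReal (dn_nonneg _ _)]

noncomputable def HH (f g k : ℝ → ℝ) (p : ℝ × ℝ) (s : ℝ) : ℝ :=
  k s * ((f p.1 * g (s - p.1) / k s) * (f p.2 * g (s - p.2) / k s) *
    (f (s - p.1 - p.2) * g (s - (s - p.1 - p.2)) / k s)) ^ (2/3 : ℝ)

lemma HH_le {f g k : ℝ → ℝ} (mf : Measurable f) (mg : Measurable g) (mk : Measurable k)
    (f0 : ∀ x, 0 ≤ f x) (g0 : ∀ x, 0 ≤ g x) (k0 : ∀ x, 0 ≤ k x)
    (hc : ∀ᵐ s, Integrable (fun y => f y * g (s - y)) ∧ ∫ y, f y * g (s - y) = k s)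
    (hk : ∫⁻ s, ENNReal.ofReal (k s) = 1) :
    ∫⁻ w : (ℝ × ℝ) × ℝ, ENNReal.ofReal (HH f g k w.1 (w.1.1 + w.1.2 + w.2))
      ∂((volume.prod volume).prod volume) ≤ ENNReal.ofReal (√3 / 2) := by
  have mH : Measurable fun w : (ℝ × ℝ) × ℝ => ENNReal.ofReal (HH f g k w.1 w.2) := by
    unfold HH; fun_prop
  have mH' : Measurable fun w : (ℝ × ℝ) × ℝ =>
      ENNReal.ofReal (HH f g k w.1 (w.1.1 + w.1.2 + w.2)) :=
    mH.comp (show Measurable fun w : (ℝ × ℝ) × ℝ => (w.1, w.1.1 + w.1.2 + w.2) by fun_prop)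
  rw [lintegral_prod _ mH'.aemeasurable]
  have e1 : ∀ p : ℝ × ℝ, ∫⁻ z, ENNReal.ofReal (HH f g k p (p.1 + p.2 + z)) =
      ∫⁻ s, ENNReal.ofReal (HH f g k p s) := fun p =>
    lintegral_add_left_eq_self (fun s => ENNReal.ofReal (HH f g k p s)) (p.1 + p.2)
  simp only [e1]
  rw [lintegral_lintegral_swap mH.aemeasurable]
  calc _ ≤ ∫⁻ s, ENNReal.ofReal (k s) * ENNReal.ofReal (√3 / 2) := by
        refine lintegral_mono_ae ?_
        filter_upwards [hc] with s hs
        rcases (k0 s).eq_or_lt with h | h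
        · simp [HH, ← h]
        · have y := young (F := fun y => f y * g (s - y) / k s) (by fun_prop)
            (hs.1.div_const _) (fun y => div_nonneg (mul_nonneg (f0 _) (g0 _)) (k0 _))
            (by rw [integral_div, hs.2, div_self h.ne']) s
          simp only [HH, ENNReal.ofReal_mul (k0 s)]
          rw [lintegral_const_mul' _ _ ENNReal.ofReal_ne_top]
          exact mul_le_mul_right y _
    _ = _ := by rw [lintegral_mul_const' _ _ ENNReal.ofReal_ne_top, hk, one_mul]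

lemma alg {a b c u v w k : ℝ} (ha : 0 < a) (hb : 0 < b) (hc : 0 < c) (hu : 0 < u) (hv : 0 < v)
    (hw : 0 < w) (hk : 0 < k) :
    a * b * c * exp (-(1/3) * (log a + log b + log c) + (2/3) * (log u + log v + log w) - log k) =
      k * ((a * u / k) * (b * v / k) * (c * w / k)) ^ (2/3 : ℝ) := by
  rw [rpow_def_of_pos (by positivity)]
  rw [log_mul (by positivity) (by positivity), log_mul (by positivity) (by positivity),
    log_div (by positivity) (by positivity), log_div (by positivity) (by positivity),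
    log_div (by positivity) (by positivity), log_mul ha.ne' hu.ne', log_mul hb.ne' hv.ne',
    log_mul hc.ne' hw.ne']
  nth_rewrite 1 [← exp_log ha, ← exp_log hb, ← exp_log hc]
  nth_rewrite 2 [← exp_log hk]
  rw [← exp_add, ← exp_add, ← exp_add, ← exp_add]
  congr 1
  ring

theorem main (μ : Measure ℝ) [IsProbabilityMeasure μ] (h : μ ≪ volume)
    (h1 : Integrable (fun x => negMulLog (dn μ x)))
    (h2 : Integrable (fun x => negMulLog (dn (μ ∗ μ) x)))
    (h3 : Integrable (fun x => negMulLog (dn ((μ ∗ μ) ∗ μ) x))) :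
    log (4 / 3) / 2 ≤ 2 * (∫ x, negMulLog (dn (μ ∗ μ) x)) - (∫ x, negMulLog (dn ((μ ∗ μ) ∗ μ) x))
      - ∫ x, negMulLog (dn μ x) := by
  set ν := μ ∗ μ with hν
  set ρ := ν ∗ μ with hρ
  have aν : ν ≪ volume := Measure.conv_absolutelyContinuous h
  have aρ : ρ ≪ volume := Measure.conv_absolutelyContinuous h
  let P : Measure ((ℝ × ℝ) × ℝ) := (μ.prod μ).prod μ
  have ad : MeasurePreserving (fun p : ℝ × ℝ => p.1 + p.2) (μ.prod μ) ν := ⟨measurable_add, rfl⟩
  have ad' : MeasurePreserving (fun p : ℝ × ℝ => p.1 + p.2) (ν.prod μ) ρ := ⟨measurable_add, rfl⟩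
  have mX : MeasurePreserving (fun w : (ℝ × ℝ) × ℝ => w.1.1) P μ :=
    measurePreserving_fst.comp measurePreserving_fst
  have mY : MeasurePreserving (fun w : (ℝ × ℝ) × ℝ => w.1.2) P μ :=
    measurePreserving_snd.comp measurePreserving_fst
  have mZ : MeasurePreserving (fun w : (ℝ × ℝ) × ℝ => w.2) P μ := measurePreserving_snd
  have mXY : MeasurePreserving (fun w : (ℝ × ℝ) × ℝ => w.1.1 + w.1.2) P ν :=
    ad.comp measurePreserving_fst
  have mXZ : MeasurePreserving (fun w : (ℝ × ℝ) × ℝ => w.1.1 + w.2) P ν :=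
    ad.comp (measurePreserving_fst.prod (MeasurePreserving.id μ))
  have mYZ : MeasurePreserving (fun w : (ℝ × ℝ) × ℝ => w.1.2 + w.2) P ν :=
    ad.comp (measurePreserving_snd.prod (MeasurePreserving.id μ))
  have mS : MeasurePreserving (fun w : (ℝ × ℝ) × ℝ => w.1.1 + w.1.2 + w.2) P ρ :=
    ad'.comp (ad.prod (MeasurePreserving.id μ))
  obtain ⟨iX, eX, pX⟩ := ent μ h h1 mX
  obtain ⟨iY, eY, pY⟩ := ent μ h h1 mY
  obtain ⟨iZ, eZ, pZ⟩ := ent μ h h1 mZ
  obtain ⟨iXY, eXY, pXY⟩ := ent ν aν h2 mXY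
  obtain ⟨iXZ, eXZ, pXZ⟩ := ent ν aν h2 mXZ
  obtain ⟨iYZ, eYZ, pYZ⟩ := ent ν aν h2 mYZ
  obtain ⟨iS, eS, pS⟩ := ent ρ aρ h3 mS
  set f := dn μ with hf
  set g := dn ν with hg
  set k := dn ρ with hk
  have mf : Measurable f := dn_meas _
  have mg : Measurable g := dn_meas _
  have mk : Measurable k := dn_meas _
  have f0 : ∀ x, 0 ≤ f x := dn_nonneg _
  have g0 : ∀ x, 0 ≤ g x := dn_nonneg _
  have k0 : ∀ x, 0 ≤ k x := dn_nonneg _
  let L : (ℝ × ℝ) × ℝ → ℝ := fun w => -(1/3) * (log (f w.1.1) + log (f w.1.2) + log (f w.2)) +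
    (2/3) * (log (g (w.1.2 + w.2)) + log (g (w.1.1 + w.2)) + log (g (w.1.1 + w.1.2))) -
      log (k (w.1.1 + w.1.2 + w.2))
  have mL : Measurable L := by simp only [L]; fun_prop
  have j0 : Integrable (fun w : (ℝ × ℝ) × ℝ => log (f w.1.1) + log (f w.1.2)) P := iX.add iY
  have j1 : Integrable (fun w : (ℝ × ℝ) × ℝ => log (f w.1.1) + log (f w.1.2) + log (f w.2)) P :=
    j0.add iZ
  have j3 : Integrable (fun w : (ℝ × ℝ) × ℝ => log (g (w.1.2 + w.2)) + log (g (w.1.1 + w.2))) P :=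
    iYZ.add iXZ
  have j2 : Integrable (fun w : (ℝ × ℝ) × ℝ => log (g (w.1.2 + w.2)) + log (g (w.1.1 + w.2)) +
    log (g (w.1.1 + w.1.2))) P := j3.add iXY
  have j4 : Integrable (fun w : (ℝ × ℝ) × ℝ =>
    -(1/3) * (log (f w.1.1) + log (f w.1.2) + log (f w.2)) +
    (2/3) * (log (g (w.1.2 + w.2)) + log (g (w.1.1 + w.2)) + log (g (w.1.1 + w.1.2)))) P :=
    (j1.const_mul _).add (j2.const_mul _)
  have iL : Integrable L P := j4.sub iS
  have eL : ∫ w, L w ∂P = (∫ x, negMulLog (f x)) - 2 * (∫ x, negMulLog (g x)) +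
      ∫ x, negMulLog (k x) := by
    simp only [L]
    rw [integral_sub j4 iS,
      integral_add (j1.const_mul _) (j2.const_mul _), integral_const_mul, integral_const_mul,
      integral_add j0 iZ, integral_add iX iY, integral_add j3 iXY,
      integral_add iYZ iXZ, eX, eY, eZ, eXY, eXZ, eYZ, eS]
    ring
  have hP : P = ((volume.prod volume).prod volume).withDensity
      (fun w : (ℝ × ℝ) × ℝ => ENNReal.ofReal (f w.1.1) * ENNReal.ofReal (f w.1.2) *
        ENNReal.ofReal (f w.2)) := by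
    have e := dn_wd μ h
    rw [← hf] at e
    simp only [P]
    rw [← e, prod_withDensity (by fun_prop) (by fun_prop),
      prod_withDensity (by fun_prop) (by fun_prop)]
  have hc : ∀ᵐ s, Integrable (fun y => f y * g (s - y)) ∧ ∫ y, f y * g (s - y) = k s := by
    have := conv_ae μ ν h aν
    rwa [Measure.conv_comm μ ν] at this
  have hk1 : ∫⁻ s, ENNReal.ofReal (k s) = 1 := by
    rw [lintegral_congr_ae (dn_ae ρ), Measure.lintegral_rnDeriv aρ, measure_univ]
  have bd : ∫⁻ w, ENNReal.ofReal (exp (L w)) ∂P ≤ ENNReal.ofReal (√3 / 2) := by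
    refine le_trans ?_ (HH_le mf mg mk f0 g0 k0 hc hk1)
    have al := pX.and (pY.and (pZ.and (pXY.and (pXZ.and (pYZ.and pS)))))
    rw [hP, lintegral_withDensity_eq_lintegral_mul _ (by fun_prop) (by fun_prop)]
    rw [hP, ae_withDensity_iff (by fun_prop)] at al
    refine lintegral_mono_ae ?_
    filter_upwards [al] with w hw
    by_cases hz : ENNReal.ofReal (f w.1.1) * ENNReal.ofReal (f w.1.2) * ENNReal.ofReal (f w.2) = 0
    · simp only [Pi.mul_apply, hz, zero_mul, zero_le]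
    · obtain ⟨a1, a2, a3, a4, a5, a6, a7⟩ := hw hz
      simp only [Pi.mul_apply]
      rw [← ENNReal.ofReal_mul (f0 _), ← ENNReal.ofReal_mul (mul_nonneg (f0 _) (f0 _)),
        ← ENNReal.ofReal_mul (by positivity)]
      apply le_of_eq
      congr 1
      simp only [L, HH]
      rw [alg a1 a2 a3 a6 a5 a4 a7]
      rw [show w.1.1 + w.1.2 + w.2 - w.1.1 - w.1.2 = w.2 by ring,
        show w.1.1 + w.1.2 + w.2 - w.1.1 = w.1.2 + w.2 by ring,
        show w.1.1 + w.1.2 + w.2 - w.1.2 = w.1.1 + w.2 by ring,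
        show w.1.1 + w.1.2 + w.2 - w.2 = w.1.1 + w.1.2 by ring]
  have c0 : 0 < √3 / 2 := by positivity
  have hn : 0 ≤ᵐ[P] fun w => exp (L w) := ae_of_all _ fun w => (exp_pos _).le
  have iE : Integrable (fun w => exp (L w)) P :=
    (lintegral_ofReal_ne_top_iff_integrable mL.exp.aestronglyMeasurable hn).mp
      (ne_top_of_le_ne_top ENNReal.ofReal_ne_top bd)
  have bE : ∫ w, exp (L w) ∂P ≤ √3 / 2 := by
    rw [integral_eq_lintegral_of_nonneg_ae hn mL.exp.aestronglyMeasurable]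
    exact ENNReal.toReal_le_of_le_ofReal c0.le bd
  have fin : ∫ w, L w ∂P ≤ ∫ w, (exp (L w) / (√3 / 2) + (log (√3 / 2) - 1)) ∂P := by
    refine integral_mono iL ((iE.div_const _).add (integrable_const _)) fun w => ?_
    have := add_one_le_exp (L w - log (√3 / 2))
    rw [exp_sub, exp_log c0] at this
    simp only
    linarith
  rw [integral_add (iE.div_const _) (integrable_const _), integral_div, integral_const, eL] at fin
  have q : (∫ w, exp (L w) ∂P) / (√3 / 2) ≤ 1 := (div_le_one c0).mpr bE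
  have l : log (4 / 3) = -2 * log (√3 / 2) := by
    have : (4 / 3 : ℝ) = ((√3 / 2) ^ 2)⁻¹ := by
      rw [div_pow, sq_sqrt (by norm_num)]; norm_num
    rw [this, log_inv, log_pow]; push_cast; ring
  simp only [probReal_univ, smul_eq_mul, one_mul] at fin
  linarith

end Pool.Agent.H.MP_8ae060_pr
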